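import Pool.Agent.J4H4.EQ.Cnt

set_option autoImplicit false

/-! # Project EQ: (AVG) -/

namespace Pool.Agent.J4H4.EQ

open Complex MeasureTheory Filter Topology Set Metric Real
open Pool.Agent.J4H3.EQ (Rect S_JN S_AVG J_AVG)

noncomputable section

theorem circ_lint {f : ℂ → ℂ} (hf : Differentiable ℂ f) (h0 : ∃ w, f w ≠ 0) {u : ℂ → ℝ} (hu : Continuous u) {c : ℂ} {s : ℝ} (hs : 0 < s)
    (hD : ∀ w ∈ closedBall c s, f w ≠ 0 → 0 ≤ DD f u w) :
    ∫⁻ θ in Ioo (-π) π, ENNReal.ofReal (DD f u (circleMap c s θ)) = ENNReal.ofReal (2 * π * circleAverage (DD f u) c s) := by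
  have hpi := Real.pi_pos
  have hper : Function.Periodic (fun θ => DD f u (circleMap c s θ)) (2 * π) := fun θ => by
    simp only [periodic_circleMap c s θ]
  have hii : IntervalIntegrable (fun θ => DD f u (circleMap c s θ)) volume (-π) π := by
    have h1 : IntervalIntegrable (fun θ => DD f u (circleMap c s θ)) volume 0 (0 + 2 * π) := by
      rw [zero_add]
      exact DD_ci hf hu c s
    exact hper.intervalIntegrable (by positivity) h1 _ _
  have hint : Integrable (fun θ => DD f u (circleMap c s θ)) (volume.restrict (Ioo (-π) π)) := by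
    rw [intervalIntegrable_iff_integrableOn_Ioc_of_le (by linarith)] at hii
    exact hii.mono_set Ioo_subset_Ioc_self
  have hae : ∀ᵐ θ ∂(volume.restrict (Ioo (-π) π)), 0 ≤ DD f u (circleMap c s θ) := by
    filter_upwards [ae_restrict_of_ae (circ_ae hf h0 c hs)] with θ hθ
    exact hD _ (circleMap_mem_closedBall c hs.le θ) hθ
  rw [← ofReal_integral_eq_lintegral_ofReal hint hae]
  congr 1
  rw [circleAverage_def, smul_eq_mul, ← mul_assoc, mul_inv_cancel₀ (by positivity), one_mul]
  have h2 := hper.intervalIntegral_add_eq 0 (-π)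
  rw [zero_add, show -π + 2 * π = π by ring] at h2
  rw [h2, intervalIntegral.integral_of_le (by linarith), integral_Ioc_eq_integral_Ioo]

theorem lint_id {R : ℝ} (hR : 0 < R) : ∫⁻ s in Ioc 0 R, ENNReal.ofReal s = ENNReal.ofReal (R ^ 2 / 2) := by
  have h1 : Integrable (fun s : ℝ => s) (volume.restrict (Ioc 0 R)) :=
    (continuous_id.integrableOn_Icc (a := 0) (b := R)).mono_set Ioc_subset_Icc_self
  have h2 : ∀ᵐ s ∂(volume.restrict (Ioc 0 R)), 0 ≤ s := by
    filter_upwards [ae_restrict_mem measurableSet_Ioc] with s hs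
    exact hs.1.le
  rw [← ofReal_integral_eq_lintegral_ofReal h1 h2, ← intervalIntegral.integral_of_le hR.le, integral_id]
  congr 1
  ring

theorem polar_le {F : ℂ → ENNReal} (hF : Measurable F) {R : ℝ} (hR : 0 < R) {M : ENNReal}
    (h1 : ∀ s, 0 < s → s ≤ R → ∫⁻ θ in Ioo (-π) π, F (circleMap 0 s θ) ≤ M) :
    ∫⁻ w in closedBall (0 : ℂ) R, F w ≤ ENNReal.ofReal (R ^ 2 / 2) * M := by
  have ht : _root_.polarCoord.target = Ioi (0 : ℝ) ×ˢ Ioo (-π) π := rfl
  rw [← lintegral_indicator measurableSet_closedBall, ← Complex.lintegral_comp_polarCoord_symm, ht,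
    Measure.volume_eq_prod, ← Measure.prod_restrict]
  have hG : Measurable ((closedBall (0 : ℂ) R).indicator F) := hF.indicator measurableSet_closedBall
  have hsymm : Measurable (fun p : ℝ × ℝ => Complex.polarCoord.symm p) := by
    simp only [Complex.polarCoord_symm_apply]
    fun_prop
  rw [lintegral_prod _ (by
    apply Measurable.aemeasurable
    have h2 : Measurable (fun p : ℝ × ℝ => ENNReal.ofReal p.1) := measurable_fst.ennreal_ofReal
    exact h2.smul (hG.comp hsymm))]
  have h3 : ∀ s ∈ Ioi (0 : ℝ), ∫⁻ θ in Ioo (-π) π, ENNReal.ofReal (s, θ).1 • (closedBall (0 : ℂ) R).indicator F (Complex.polarCoord.symm (s, θ)) ≤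
      (Ioc 0 R).indicator (fun s => ENNReal.ofReal s * M) s := by
    intro s hs
    rw [mem_Ioi] at hs
    have e1 : ∀ θ : ℝ, Complex.polarCoord.symm (s, θ) = circleMap 0 s θ := by
      intro θ
      rw [Complex.polarCoord_symm_apply, circleMap_zero, Complex.exp_mul_I]
      push_cast
      ring
    simp only [e1]
    by_cases hsR : s ≤ R
    · rw [indicator_of_mem (show s ∈ Ioc 0 R from ⟨hs, hsR⟩)]
      have e2 : ∀ θ : ℝ, (closedBall (0 : ℂ) R).indicator F (circleMap 0 s θ) = F (circleMap 0 s θ) := by
        intro θ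
        apply indicator_of_mem
        rw [mem_closedBall_zero_iff, norm_circleMap_zero, abs_of_pos hs]
        exact hsR
      simp only [e2, smul_eq_mul]
      rw [lintegral_const_mul]
      · gcongr
        exact h1 s hs hsR
      · exact hF.comp (continuous_circleMap 0 s).measurable
    · have e2 : ∀ θ : ℝ, (closedBall (0 : ℂ) R).indicator F (circleMap 0 s θ) = 0 := by
        intro θ
        apply indicator_of_notMem
        rw [mem_closedBall_zero_iff, norm_circleMap_zero, abs_of_pos hs]
        exact hsR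
      simp [e2]
  refine (setLIntegral_mono' measurableSet_Ioi h3).trans ?_
  rw [lintegral_indicator measurableSet_Ioc, Measure.restrict_restrict measurableSet_Ioc,
    show Ioc (0 : ℝ) R ∩ Ioi 0 = Ioc 0 R from inter_eq_left.2 Ioc_subset_Ioi_self]
  have hm : Measurable (fun s : ℝ => ENNReal.ofReal s) := measurable_id.ennreal_ofReal
  rw [lintegral_mul_const _ hm, lint_id hR]

theorem t_SAVG : S_AVG := by
  intro f u g R B hf hu hg hR hB hup hmean
  have hpi := Real.pi_pos
  have h0 : ∃ z, f z ≠ 0 := ⟨g, hg⟩
  have hDm : Measurable (fun w => ENNReal.ofReal (DD f u w)) := (DD_meas hf hu).ennreal_ofReal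
  have e1 : ∫⁻ w in closedBall g R, ENNReal.ofReal (u w - Real.log ‖f w‖) =
      ∫⁻ w in closedBall (0 : ℂ) R, ENNReal.ofReal (DD f u (w + g)) := by
    rw [← lintegral_indicator measurableSet_closedBall, ← lintegral_indicator measurableSet_closedBall,
      ← lintegral_add_right_eq_self (fun w => (closedBall g R).indicator _ w) g]
    refine lintegral_congr fun w => ?_
    by_cases hw : w ∈ closedBall (0 : ℂ) R
    · have hw' : w + g ∈ closedBall g R := by
        rw [mem_closedBall, dist_eq_norm, add_sub_cancel_right]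
        rwa [mem_closedBall_zero_iff] at hw
      rw [indicator_of_mem hw, indicator_of_mem hw']
      rfl
    · have hw' : w + g ∉ closedBall g R := by
        rw [mem_closedBall, dist_eq_norm, add_sub_cancel_right]
        rwa [mem_closedBall_zero_iff] at hw
      rw [indicator_of_notMem hw, indicator_of_notMem hw']
  rw [e1]
  refine (polar_le (M := ENNReal.ofReal (2 * π * B)) (hDm.comp (measurable_add_const g)) hR ?_).trans ?_
  · intro s hs hsR
    have e2 : ∀ θ : ℝ, circleMap 0 s θ + g = circleMap g s θ := by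
      intro θ
      simp [circleMap, add_comm]
    simp only [Function.comp, e2]
    have hD : ∀ w ∈ closedBall g s, f w ≠ 0 → 0 ≤ DD f u w := by
      intro w hw hfw
      rw [mem_closedBall, dist_eq_norm] at hw
      have := hup w (hw.trans hsR) hfw
      unfold DD
      linarith
    rw [circ_lint hf h0 hu hs hD]
    apply ENNReal.ofReal_le_ofReal
    have h1 := jen_le hf hg hs ∅
    simp only [Finset.sum_empty, add_zero] at h1
    have h2 := hmean s hs hsR
    rw [DD_avg hf hu]
    have : circleAverage u g s - circleAverage (fun w => Real.log ‖f w‖) g s ≤ B := by linarith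
    gcongr
  · rw [← ENNReal.ofReal_mul (by positivity)]
    apply ENNReal.ofReal_le_ofReal
    apply le_of_eq
    ring

theorem t_AVG : J_AVG := fun _ => t_SAVG

end

end Pool.Agent.J4H4.EQ
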