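import Mathlib

set_option autoImplicit false

/-! # Project EQ: Jensen's formula integrated over the centres -/

namespace Pool.Agent.J4H4.EQ

open Complex MeasureTheory Filter Topology Set Metric Real

noncomputable section

/-- the order of vanishing -/
def mu (f : ℂ → ℂ) (w : ℂ) : ℝ := (analyticOrderNatAt f w : ℝ)

theorem mu_nonneg (f : ℂ → ℂ) (w : ℂ) : 0 ≤ mu f w := Nat.cast_nonneg _

theorem dv {f : ℂ → ℂ} {U : Set ℂ} (hA : AnalyticOnNhd ℂ f U) {z : ℂ} (hz : z ∈ U) :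
    MeromorphicOn.divisor f U z = (analyticOrderNatAt f z : ℤ) := by
  rw [MeromorphicOn.AnalyticOnNhd.divisor_apply hA hz]
  unfold analyticOrderNatAt
  generalize analyticOrderAt f z = e
  induction e using WithTop.recTopCoe with
  | top => rfl
  | coe n => rfl

theorem jen_eq' {f : ℂ → ℂ} (hf : Differentiable ℂ f) {c : ℂ} (hc : f c ≠ 0) {s : ℝ} (hs : 0 < s) (S : Finset ℂ)
    (hS : ∀ w ∈ closedBall c s, analyticOrderNatAt f w ≠ 0 → w ∈ S) :
    circleAverage (fun w => Real.log ‖f w‖) c s = Real.log ‖f c‖ + ∑ w ∈ S, mu f w * log⁺ (s * ‖c - w‖⁻¹) := by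
  have hA : AnalyticOnNhd ℂ f (closedBall c |s|) := fun x _ => hf.analyticAt x
  have h1 := hA.circleAverage_log_norm hs.ne' hc
  have hD : ∀ u, MeromorphicOn.divisor f (closedBall c |s|) u ≠ 0 → u ∈ closedBall c s ∧
      (MeromorphicOn.divisor f (closedBall c |s|) u : ℝ) = mu f u ∧ analyticOrderNatAt f u ≠ 0 := by
    intro u hu
    have hu1 : u ∈ closedBall c |s| := by
      by_contra h
      exact hu (Function.locallyFinsuppWithin.apply_eq_zero_of_notMem _ h)
    have h2 := dv hA hu1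
    rw [abs_of_pos hs] at hu1
    refine ⟨hu1, ?_, ?_⟩
    · rw [h2]
      rfl
    · intro h0
      apply hu
      rw [h2]
      exact_mod_cast h0
  rw [h1, add_comm]
  congr 1
  rw [finsum_eq_sum_of_support_subset (s := S)]
  · refine Finset.sum_congr rfl fun u hu => ?_
    by_cases h0 : MeromorphicOn.divisor f (closedBall c |s|) u = 0
    · rw [h0]
      by_cases hu1 : u ∈ closedBall c s
      · have h2 := dv hA (by rwa [abs_of_pos hs] : u ∈ closedBall c |s|)
        rw [h0] at h2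
        have : mu f u = 0 := by
          unfold mu
          exact_mod_cast h2.symm
        rw [this]
        simp
      · have : log⁺ (s * ‖c - u‖⁻¹) = 0 := by
          rw [posLog_eq_zero_iff, abs_of_nonneg (by positivity)]
          rw [mem_closedBall, dist_comm, dist_eq_norm, not_le] at hu1
          rw [← div_eq_mul_inv, div_le_one (hs.trans hu1)]
          exact hu1.le
        rw [this]
        simp
    · obtain ⟨h2, h3, h4⟩ := hD u h0
      rw [h3]
      have hne : u ≠ c := by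
        rintro rfl
        apply h4
        have := (hf.analyticAt u).analyticOrderAt_eq_zero.2 hc
        unfold analyticOrderNatAt
        rw [this]
        rfl
      have h5 : 0 < ‖c - u‖ := norm_pos_iff.2 (sub_ne_zero.2 hne.symm)
      rw [mem_closedBall, dist_comm, dist_eq_norm] at h2
      rw [posLog_eq_log]
      rw [abs_of_nonneg (by positivity), ← div_eq_mul_inv, one_le_div h5]
      exact h2
  · intro u hu
    have h0 : MeromorphicOn.divisor f (closedBall c |s|) u ≠ 0 := by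
      intro h
      apply hu
      simp [h]
    obtain ⟨h2, h3, h4⟩ := hD u h0
    exact hS u h2 h4

theorem jen_eq {f : ℂ → ℂ} (hf : Differentiable ℂ f) {c : ℂ} (hc : f c ≠ 0) {s : ℝ} (hs : 0 < s) (S : Finset ℂ)
    (hS : ∀ w ∈ closedBall c s, f w = 0 → w ∈ S) :
    circleAverage (fun w => Real.log ‖f w‖) c s = Real.log ‖f c‖ + ∑ w ∈ S, mu f w * log⁺ (s * ‖c - w‖⁻¹) := by
  refine jen_eq' hf hc hs S fun w hw h => hS w hw ?_
  by_contra h0
  apply h
  have := (hf.analyticAt w).analyticOrderAt_eq_zero.2 h0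
  unfold analyticOrderNatAt
  rw [this]
  rfl

theorem jen_le {f : ℂ → ℂ} (hf : Differentiable ℂ f) {c : ℂ} (hc : f c ≠ 0) {s : ℝ} (hs : 0 < s) (S : Finset ℂ) :
    Real.log ‖f c‖ + ∑ w ∈ S, mu f w * log⁺ (s * ‖c - w‖⁻¹) ≤ circleAverage (fun w => Real.log ‖f w‖) c s := by
  classical
  have hA : AnalyticOnNhd ℂ f (closedBall c |s|) := fun x _ => hf.analyticAt x
  have hfin := (MeromorphicOn.divisor f (closedBall c |s|)).finiteSupport (isCompact_closedBall c |s|)
  have h1 := jen_eq' hf hc hs (S ∪ hfin.toFinset) (fun w hw h => by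
    rw [Finset.mem_union]
    right
    rw [Set.Finite.mem_toFinset, Function.mem_support]
    have h2 := dv hA (by rwa [abs_of_pos hs] : w ∈ closedBall c |s|)
    rw [h2]
    exact_mod_cast h)
  rw [h1]
  have : ∑ w ∈ S, mu f w * log⁺ (s * ‖c - w‖⁻¹) ≤ ∑ w ∈ S ∪ hfin.toFinset, mu f w * log⁺ (s * ‖c - w‖⁻¹) :=
    Finset.sum_le_sum_of_subset_of_nonneg Finset.subset_union_left fun i _ _ => mul_nonneg (mu_nonneg _ _) posLog_nonneg
  linarith

theorem ae_ne {f : ℂ → ℂ} (hf : Differentiable ℂ f) (h0 : ∃ w, f w ≠ 0) : ∀ᵐ c : ℂ, f c ≠ 0 := by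
  obtain ⟨w, hw⟩ := h0
  have h1 : AnalyticOnNhd ℂ f univ := fun x _ => hf.analyticAt x
  have h2 := h1.preimage_zero_mem_codiscrete hw
  have h3 := ae_restrict_le_codiscreteWithin (μ := (volume : Measure ℂ)) (U := univ) MeasurableSet.univ
  rw [Measure.restrict_univ] at h3
  filter_upwards [h3 h2] with c hc
  simpa using hc

theorem lam_meas (w : ℂ) (s : ℝ) : Measurable (fun c : ℂ => log⁺ (s * ‖c - w‖⁻¹)) := by
  have : Measurable (fun c : ℂ => s * ‖c - w‖⁻¹) := by fun_prop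
  exact continuous_posLog.measurable.comp this

theorem lam_int (w : ℂ) {s : ℝ} (hs : 0 < s) :
    ∫⁻ c : ℂ, ENNReal.ofReal (log⁺ (s * ‖c - w‖⁻¹)) = ENNReal.ofReal (π * s ^ 2 / 2) := by
  rw [lintegral_eq_lintegral_meas_lt volume (Eventually.of_forall fun c => posLog_nonneg) (lam_meas w s).aemeasurable]
  have h1 : ∀ t ∈ Ioi (0 : ℝ), volume {c : ℂ | t < log⁺ (s * ‖c - w‖⁻¹)} = ENNReal.ofReal (π * s ^ 2 * Real.exp (-2 * t)) := by
    intro t ht
    rw [mem_Ioi] at ht
    have e : {c : ℂ | t < log⁺ (s * ‖c - w‖⁻¹)} = ball w (s * Real.exp (-t)) \ {w} := by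
      ext c
      simp only [Set.mem_ofPred_eq, Set.mem_sdiff, mem_ball, mem_singleton_iff, dist_eq_norm]
      by_cases hcw : c = w
      · subst hcw
        simp [ht.le]
      · have h2 : 0 < ‖c - w‖ := norm_pos_iff.2 (sub_ne_zero.2 hcw)
        simp only [hcw, not_false_eq_true, and_true]
        rw [posLog_apply, lt_max_iff, Real.lt_log_iff_exp_lt (by positivity), ← div_eq_mul_inv, lt_div_iff₀ h2, Real.exp_neg,
          ← div_eq_mul_inv, lt_div_iff₀ (Real.exp_pos _)]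
        constructor
        · rintro (h | h)
          · linarith
          · linarith
        · intro h
          right
          linarith
    rw [e, measure_sdiff_null (by simp), Complex.volume_ball, ← ENNReal.ofReal_pow (by positivity)]
    rw [show (NNReal.pi : ENNReal) = ENNReal.ofReal π by
      rw [← NNReal.coe_real_pi, ENNReal.ofReal_coe_nnreal], ← ENNReal.ofReal_mul (by positivity)]
    congr 1
    rw [mul_pow, ← Real.exp_nat_mul]
    push_cast
    ring_nf
  rw [setLIntegral_congr_fun measurableSet_Ioi h1]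
  have h2 : IntegrableOn (fun t : ℝ => π * s ^ 2 * Real.exp (-2 * t)) (Ioi 0) :=
    (integrableOn_exp_mul_Ioi (by norm_num) 0).const_mul _
  rw [← ofReal_integral_eq_lintegral_ofReal h2 (Eventually.of_forall fun t => by positivity)]
  congr 1
  rw [integral_const_mul, integral_exp_mul_Ioi (by norm_num)]
  simp
  ring

theorem zeros_countable {f : ℂ → ℂ} (hf : Differentiable ℂ f) (h0 : ∃ w, f w ≠ 0) : {w : ℂ | f w = 0}.Countable := by
  obtain ⟨w, hw⟩ := h0
  have h1 : AnalyticOnNhd ℂ f univ := fun x _ => hf.analyticAt x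
  have h2 := h1.preimage_zero_mem_codiscreteWithin hw (mem_univ w) isConnected_univ
  have : DiscreteTopology ↑((f ⁻¹' {0}ᶜ)ᶜ ∩ univ) := isDiscrete_iff_discreteTopology.mp
    (isDiscrete_of_codiscreteWithin ((compl_compl (f ⁻¹' {0}ᶜ)).symm ▸ h2))
  have h3 : ((f ⁻¹' {0}ᶜ)ᶜ ∩ univ).Countable := TopologicalSpace.separableSpace_iff_countable.1 inferInstance
  refine h3.mono fun x hx => ?_
  simpa using hx

theorem circ_ae {f : ℂ → ℂ} (hf : Differentiable ℂ f) (h0 : ∃ w, f w ≠ 0) (c : ℂ) {s : ℝ} (hs : 0 < s) :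
    ∀ᵐ θ : ℝ, f (circleMap c s θ) ≠ 0 := by
  have h1 := ((zeros_countable hf h0).preimage_circleMap c hs.ne').measure_zero (volume : Measure ℝ)
  rw [ae_iff]
  simpa using h1

/-- the defect -/
def DD (f : ℂ → ℂ) (u : ℂ → ℝ) (w : ℂ) : ℝ := u w - Real.log ‖f w‖

theorem DD_meas {f : ℂ → ℂ} (hf : Differentiable ℂ f) {u : ℂ → ℝ} (hu : Continuous u) : Measurable (DD f u) := by
  unfold DD
  have h1 : Measurable u := hu.measurable
  have h2 : Measurable f := hf.continuous.measurable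
  exact h1.sub (Real.measurable_log.comp h2.norm)

theorem log_ci {f : ℂ → ℂ} (hf : Differentiable ℂ f) (c : ℂ) (s : ℝ) : CircleIntegrable (fun w => Real.log ‖f w‖) c s := by
  have : MeromorphicOn f (sphere c |s|) := fun x _ => (hf.analyticAt x).meromorphicAt
  exact this.circleIntegrable_log_norm

theorem DD_ci {f : ℂ → ℂ} (hf : Differentiable ℂ f) {u : ℂ → ℝ} (hu : Continuous u) (c : ℂ) (s : ℝ) :
    CircleIntegrable (DD f u) c s := by
  have h1 : CircleIntegrable u c s := hu.continuousOn.circleIntegrable'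
  exact h1.sub (log_ci hf c s)

theorem DD_avg {f : ℂ → ℂ} (hf : Differentiable ℂ f) {u : ℂ → ℝ} (hu : Continuous u) (c : ℂ) (s : ℝ) :
    circleAverage (DD f u) c s = circleAverage u c s - circleAverage (fun w => Real.log ‖f w‖) c s := by
  have h1 : CircleIntegrable u c s := hu.continuousOn.circleIntegrable'
  have := circleAverage_sub h1 (log_ci hf c s)
  exact this

/-- the average of the defect, in `[0, ∞]` -/
theorem DD_lint {f : ℂ → ℂ} (hf : Differentiable ℂ f) (h0 : ∃ w, f w ≠ 0) {u : ℂ → ℝ} (hu : Continuous u) {c : ℂ} {s : ℝ} (hs : 0 < s)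
    (hD : ∀ w ∈ closedBall c s, f w ≠ 0 → 0 ≤ DD f u w) :
    0 ≤ circleAverage (DD f u) c s ∧ ENNReal.ofReal (circleAverage (DD f u) c s) =
      ENNReal.ofReal ((2 * π)⁻¹) * ∫⁻ θ in Ioc 0 (2 * π), ENNReal.ofReal (DD f u (circleMap c s θ)) := by
  have hpi : (0 : ℝ) ≤ 2 * π := by positivity
  have hae : ∀ᵐ θ ∂(volume.restrict (Ioc 0 (2 * π))), 0 ≤ DD f u (circleMap c s θ) := by
    filter_upwards [ae_restrict_of_ae (circ_ae hf h0 c hs)] with θ hθ
    refine hD _ ?_ hθ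
    exact circleMap_mem_closedBall c hs.le θ
  have hci : Integrable (fun θ => DD f u (circleMap c s θ)) (volume.restrict (Ioc 0 (2 * π))) := by
    have := DD_ci hf hu c s
    unfold CircleIntegrable at this
    rwa [intervalIntegrable_iff_integrableOn_Ioc_of_le hpi] at this
  have e : circleAverage (DD f u) c s = (2 * π)⁻¹ * ∫ θ in Ioc 0 (2 * π), DD f u (circleMap c s θ) := by
    rw [circleAverage_def, intervalIntegral.integral_of_le hpi, smul_eq_mul]
  have hnn : 0 ≤ ∫ θ in Ioc 0 (2 * π), DD f u (circleMap c s θ) := integral_nonneg_of_ae hae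
  refine ⟨by rw [e]; positivity, ?_⟩
  rw [e, ENNReal.ofReal_mul (by positivity), ofReal_integral_eq_lintegral_ofReal hci hae]

theorem swap_le {F : ℂ → ENNReal} (hF : Measurable F) {Q Q' : Set ℂ} (hQ : MeasurableSet Q) (hQ' : MeasurableSet Q') {s : ℝ} (hs : 0 < s)
    (hsub : ∀ c ∈ Q, closedBall c s ⊆ Q') :
    ∫⁻ c in Q, (ENNReal.ofReal ((2 * π)⁻¹) * ∫⁻ θ in Ioc 0 (2 * π), F (circleMap c s θ)) ≤ ∫⁻ w in Q', F w := by
  have hjoint : Measurable (fun p : ℂ × ℝ => F (circleMap p.1 s p.2)) := by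
    apply hF.comp
    unfold circleMap
    fun_prop
  have h1 : Measurable (fun c : ℂ => ∫⁻ θ in Ioc 0 (2 * π), F (circleMap c s θ)) :=
    Measurable.lintegral_prod_right' (f := fun p : ℂ × ℝ => F (circleMap p.1 s p.2)) hjoint
  rw [lintegral_const_mul _ h1, lintegral_lintegral_swap (f := fun c θ => F (circleMap c s θ)) hjoint.aemeasurable]
  have h2 : ∀ θ : ℝ, ∫⁻ c in Q, F (circleMap c s θ) ≤ ∫⁻ w in Q', F w := by
    intro θ
    rw [← lintegral_indicator hQ, ← lintegral_indicator hQ',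
      ← lintegral_add_right_eq_self (fun w => Q'.indicator F w) (circleMap 0 s θ)]
    refine lintegral_mono fun c => ?_
    by_cases hc : c ∈ Q
    · have e : c + circleMap 0 s θ = circleMap c s θ := by simp [circleMap]
      have h3 : c + circleMap 0 s θ ∈ Q' := by
        rw [e]
        exact hsub c hc (circleMap_mem_closedBall c hs.le θ)
      rw [indicator_of_mem hc, indicator_of_mem h3, e]
    · rw [indicator_of_notMem hc]
      exact bot_le
  have h4 : ∫⁻ θ in Ioc 0 (2 * π), ∫⁻ c in Q, F (circleMap c s θ) ≤ ∫⁻ θ in Ioc (0 : ℝ) (2 * π), ∫⁻ w in Q', F w :=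
    lintegral_mono fun θ => h2 θ
  have h5 : ∫⁻ θ in Ioc (0 : ℝ) (2 * π), ∫⁻ w in Q', F w = (∫⁻ w in Q', F w) * ENNReal.ofReal (2 * π) := by
    rw [setLIntegral_const, Real.volume_Ioc, sub_zero]
  rw [h5] at h4
  calc _ ≤ ENNReal.ofReal ((2 * π)⁻¹) * ((∫⁻ w in Q', F w) * ENNReal.ofReal (2 * π)) := by gcongr
    _ = (∫⁻ w in Q', F w) * (ENNReal.ofReal ((2 * π)⁻¹) * ENNReal.ofReal (2 * π)) := by ring
    _ = ∫⁻ w in Q', F w := by
      rw [← ENNReal.ofReal_mul (by positivity), inv_mul_cancel₀ (by positivity), ENNReal.ofReal_one, mul_one]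

theorem sum_lint {f : ℂ → ℂ} (S : Finset ℂ) {s : ℝ} (Q : Set ℂ) :
    ∫⁻ c in Q, ENNReal.ofReal (∑ w ∈ S, mu f w * log⁺ (s * ‖c - w‖⁻¹)) =
      ∑ w ∈ S, ENNReal.ofReal (mu f w) * ∫⁻ c in Q, ENNReal.ofReal (log⁺ (s * ‖c - w‖⁻¹)) := by
  have h1 : ∀ c, ENNReal.ofReal (∑ w ∈ S, mu f w * log⁺ (s * ‖c - w‖⁻¹)) =
      ∑ w ∈ S, ENNReal.ofReal (mu f w) * ENNReal.ofReal (log⁺ (s * ‖c - w‖⁻¹)) := by
    intro c
    rw [ENNReal.ofReal_sum_of_nonneg fun i _ => mul_nonneg (mu_nonneg _ _) posLog_nonneg]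
    exact Finset.sum_congr rfl fun w _ => ENNReal.ofReal_mul (mu_nonneg _ _)
  simp only [h1]
  rw [lintegral_finsetSum]
  · refine Finset.sum_congr rfl fun w _ => ?_
    rw [lintegral_const_mul]
    exact (lam_meas w s).ennreal_ofReal
  · intro w _
    exact ((lam_meas w s).ennreal_ofReal).const_mul _

theorem sum_meas {f : ℂ → ℂ} (S : Finset ℂ) (s : ℝ) : Measurable (fun c : ℂ => ∑ w ∈ S, mu f w * log⁺ (s * ‖c - w‖⁻¹)) :=
  Finset.measurable_sum _ fun w _ => (lam_meas w s).const_mul _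

theorem lam_in {Q : Set ℂ} (hQ : MeasurableSet Q) {w : ℂ} {s : ℝ} (hs : 0 < s) (h : closedBall w s ⊆ Q) :
    ∫⁻ c in Q, ENNReal.ofReal (log⁺ (s * ‖c - w‖⁻¹)) = ENNReal.ofReal (π * s ^ 2 / 2) := by
  rw [← lam_int w hs, ← lintegral_indicator hQ]
  refine lintegral_congr fun c => ?_
  by_cases hc : c ∈ Q
  · rw [indicator_of_mem hc]
  · rw [indicator_of_notMem hc]
    have h1 : c ∉ closedBall w s := fun h2 => hc (h h2)
    rw [mem_closedBall, dist_eq_norm, not_le] at h1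
    have : log⁺ (s * ‖c - w‖⁻¹) = 0 := by
      rw [posLog_eq_zero_iff, abs_of_nonneg (by positivity), ← div_eq_mul_inv, div_le_one (hs.trans h1)]
      exact h1.le
    rw [this, ENNReal.ofReal_zero]

/-- the lower bound for the number of zeros -/
theorem JI_low {f : ℂ → ℂ} {u : ℂ → ℝ} {Q Q' : Set ℂ} {s L B : ℝ} (hf : Differentiable ℂ f) (h0 : ∃ w, f w ≠ 0) (hu : Continuous u)
    (hQ : MeasurableSet Q) (hQ' : MeasurableSet Q') (hvol : volume Q < ⊤) (hs : 0 < s) (hsub : ∀ c ∈ Q, closedBall c s ⊆ Q')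
    (hk : ∀ c ∈ Q, u c + L ≤ circleAverage u c s) (hDD : ∀ w ∈ Q', f w ≠ 0 → Real.log ‖f w‖ ≤ u w) (hB : 0 ≤ B)
    (hint : (∫⁻ w in Q', ENNReal.ofReal (u w - Real.log ‖f w‖)) ≤ ENNReal.ofReal B) (S : Finset ℂ)
    (hS : ∀ w ∈ Q', f w = 0 → w ∈ S) :
    (volume Q).toReal * L - B ≤ (∑ w ∈ S, (analyticOrderNatAt f w : ℝ)) * (π * s ^ 2 / 2) := by
  have hpi := Real.pi_pos
  obtain ⟨V, hV⟩ : ∃ V : ℝ, V = (volume Q).toReal := ⟨_, rfl⟩
  have hV0 : 0 ≤ V := by rw [hV]; exact ENNReal.toReal_nonneg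
  have hVQ : volume Q = ENNReal.ofReal V := by rw [hV, ENNReal.ofReal_toReal hvol.ne]
  rw [← hV]
  have hDm : Measurable (fun w => ENNReal.ofReal (DD f u w)) := (DD_meas hf hu).ennreal_ofReal
  have hDB : ∫⁻ w in Q', ENNReal.ofReal (DD f u w) ≤ ENNReal.ofReal B := hint
  have hDpos : ∀ c ∈ Q, ∀ w ∈ closedBall c s, f w ≠ 0 → 0 ≤ DD f u w := by
    intro c hc w hw hfw
    unfold DD
    have := hDD w (hsub c hc hw) hfw
    linarith
  have hae : ∀ᵐ c ∂(volume.restrict Q), c ∈ Q ∧ f c ≠ 0 := by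
    filter_upwards [ae_restrict_of_ae (ae_ne hf h0), ae_restrict_mem hQ] with c h1 h2
    exact ⟨h2, h1⟩
  have h5 : 0 ≤ (∑ w ∈ S, mu f w) * (π * s ^ 2 / 2) :=
    mul_nonneg (Finset.sum_nonneg fun _ _ => mu_nonneg _ _) (by positivity)
  have hgoal : V * L - B ≤ (∑ w ∈ S, mu f w) * (π * s ^ 2 / 2) := by
    rcases le_or_gt L 0 with hke | hke
    · have : V * L ≤ 0 := mul_nonpos_of_nonneg_of_nonpos hV0 hke
      linarith
    · have e1 : ∫⁻ c in Q, ENNReal.ofReal (∑ w ∈ S, mu f w * log⁺ (s * ‖c - w‖⁻¹)) ≤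
          ENNReal.ofReal ((∑ w ∈ S, mu f w) * (π * s ^ 2 / 2)) := by
        rw [sum_lint, Finset.sum_mul, ENNReal.ofReal_sum_of_nonneg fun i _ => mul_nonneg (mu_nonneg _ _) (by positivity)]
        refine Finset.sum_le_sum fun w hw => ?_
        rw [ENNReal.ofReal_mul (mu_nonneg _ _), ← lam_int w hs]
        gcongr
        exact Measure.restrict_le_self
      have hpt : ∀ᵐ c ∂(volume.restrict Q), ENNReal.ofReal L ≤
          ENNReal.ofReal (∑ w ∈ S, mu f w * log⁺ (s * ‖c - w‖⁻¹)) + ENNReal.ofReal ((2 * π)⁻¹) *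
            ∫⁻ θ in Ioc 0 (2 * π), ENNReal.ofReal (DD f u (circleMap c s θ)) := by
        filter_upwards [hae] with c hc
        have h1 := jen_eq hf hc.2 hs S (fun w hw => hS w (hsub c hc.1 hw))
        obtain ⟨h2, h3⟩ := DD_lint hf h0 hu hs (hDpos c hc.1)
        rw [← h3, ← ENNReal.ofReal_add (Finset.sum_nonneg fun i _ => mul_nonneg (mu_nonneg _ _) posLog_nonneg) h2]
        apply ENNReal.ofReal_le_ofReal
        have h4 := hDpos c hc.1 c (mem_closedBall_self hs.le) hc.2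
        rw [DD_avg hf hu]
        have h6 := hk c hc.1
        unfold DD at h4
        linarith
      have h7 : ENNReal.ofReal (V * L) ≤ ENNReal.ofReal ((∑ w ∈ S, mu f w) * (π * s ^ 2 / 2)) + ENNReal.ofReal B := by
        calc ENNReal.ofReal (V * L) = ∫⁻ c in Q, ENNReal.ofReal L := by
              rw [setLIntegral_const, hVQ, mul_comm (ENNReal.ofReal L), ← ENNReal.ofReal_mul hV0]
          _ ≤ ∫⁻ c in Q, (ENNReal.ofReal (∑ w ∈ S, mu f w * log⁺ (s * ‖c - w‖⁻¹)) + ENNReal.ofReal ((2 * π)⁻¹) *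
            ∫⁻ θ in Ioc 0 (2 * π), ENNReal.ofReal (DD f u (circleMap c s θ))) := lintegral_mono_ae hpt
          _ = (∫⁻ c in Q, ENNReal.ofReal (∑ w ∈ S, mu f w * log⁺ (s * ‖c - w‖⁻¹))) + ∫⁻ c in Q, (ENNReal.ofReal ((2 * π)⁻¹) *
            ∫⁻ θ in Ioc 0 (2 * π), ENNReal.ofReal (DD f u (circleMap c s θ))) :=
              lintegral_add_left (sum_meas S s).ennreal_ofReal _
          _ ≤ _ := add_le_add e1 ((swap_le hDm hQ hQ' hs hsub).trans hDB)
      rw [← ENNReal.ofReal_add h5 hB, ENNReal.ofReal_le_ofReal_iff (by positivity)] at h7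
      linarith
  exact hgoal

/-- (JI) Jensen's formula integrated over the centres -/
def S_JI : Prop := ∀ (f : ℂ → ℂ) (u : ℂ → ℝ) (Q Q' : Set ℂ) (s k e B : ℝ), Differentiable ℂ f → (∃ w, f w ≠ 0) → Continuous u →
  MeasurableSet Q → MeasurableSet Q' → volume Q < ⊤ → 0 < s → (∀ c ∈ Q, closedBall c s ⊆ Q') →
  (∀ c ∈ Q, |circleAverage u c s - u c - k| ≤ e) → (∀ w ∈ Q', f w ≠ 0 → Real.log ‖f w‖ ≤ u w) → 0 ≤ B →
  (∫⁻ w in Q', ENNReal.ofReal (u w - Real.log ‖f w‖)) ≤ ENNReal.ofReal B →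
  (∀ S : Finset ℂ, (∀ w ∈ S, f w = 0 ∧ closedBall w s ⊆ Q) →
    (∑ w ∈ S, (analyticOrderNatAt f w : ℝ)) * (π * s ^ 2 / 2) ≤ (volume Q).toReal * (k + e) + B) ∧
  (∀ S : Finset ℂ, (∀ w ∈ Q', f w = 0 → w ∈ S) →
    (volume Q).toReal * (k - e) - B ≤ (∑ w ∈ S, (analyticOrderNatAt f w : ℝ)) * (π * s ^ 2 / 2))

theorem t_JI : S_JI := by
  intro f u Q Q' s k e B hf h0 hu hQ hQ' hvol hs hsub hk hDD hB hint
  have hpi := Real.pi_pos
  obtain ⟨V, hV⟩ : ∃ V : ℝ, V = (volume Q).toReal := ⟨_, rfl⟩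
  have hV0 : 0 ≤ V := by rw [hV]; exact ENNReal.toReal_nonneg
  have hVQ : volume Q = ENNReal.ofReal V := by rw [hV, ENNReal.ofReal_toReal hvol.ne]
  rw [← hV]
  have hQQ' : Q ⊆ Q' := fun c hc => hsub c hc (mem_closedBall_self hs.le)
  have hDm : Measurable (fun w => ENNReal.ofReal (DD f u w)) := (DD_meas hf hu).ennreal_ofReal
  have hDB : ∫⁻ w in Q', ENNReal.ofReal (DD f u w) ≤ ENNReal.ofReal B := hint
  have hDQ : ∫⁻ w in Q, ENNReal.ofReal (DD f u w) ≤ ENNReal.ofReal B :=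
    (lintegral_mono' (Measure.restrict_mono hQQ' le_rfl) le_rfl).trans hDB
  have hDpos : ∀ c ∈ Q, ∀ w ∈ closedBall c s, f w ≠ 0 → 0 ≤ DD f u w := by
    intro c hc w hw hfw
    unfold DD
    have := hDD w (hsub c hc hw) hfw
    linarith
  have hae : ∀ᵐ c ∂(volume.restrict Q), c ∈ Q ∧ f c ≠ 0 := by
    filter_upwards [ae_restrict_of_ae (ae_ne hf h0), ae_restrict_mem hQ] with c h1 h2
    exact ⟨h2, h1⟩
  constructor
  · intro S hS
    have e1 : ∫⁻ c in Q, ENNReal.ofReal (∑ w ∈ S, mu f w * log⁺ (s * ‖c - w‖⁻¹)) =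
        ENNReal.ofReal ((∑ w ∈ S, mu f w) * (π * s ^ 2 / 2)) := by
      rw [sum_lint, Finset.sum_mul, ENNReal.ofReal_sum_of_nonneg fun i _ => mul_nonneg (mu_nonneg _ _) (by positivity)]
      refine Finset.sum_congr rfl fun w hw => ?_
      rw [lam_in hQ hs (hS w hw).2, ENNReal.ofReal_mul (mu_nonneg _ _)]
    have hpt : ∀ᵐ c ∂(volume.restrict Q), ∑ w ∈ S, mu f w * log⁺ (s * ‖c - w‖⁻¹) ≤ DD f u c + (k + e) := by
      filter_upwards [hae] with c hc
      have h1 := jen_le hf hc.2 hs S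
      have h2 := (DD_lint hf h0 hu hs (hDpos c hc.1)).1
      rw [DD_avg hf hu] at h2
      have h3 := (abs_le.1 (hk c hc.1)).2
      unfold DD
      linarith
    have hgoal : (∑ w ∈ S, mu f w) * (π * s ^ 2 / 2) ≤ V * (k + e) + B := by
      rcases le_or_gt 0 (k + e) with hke | hke
      · have h4 : ENNReal.ofReal ((∑ w ∈ S, mu f w) * (π * s ^ 2 / 2)) ≤ ENNReal.ofReal B + ENNReal.ofReal (V * (k + e)) := by
          rw [← e1]
          calc ∫⁻ c in Q, ENNReal.ofReal (∑ w ∈ S, mu f w * log⁺ (s * ‖c - w‖⁻¹))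
              ≤ ∫⁻ c in Q, (ENNReal.ofReal (DD f u c) + ENNReal.ofReal (k + e)) := by
                refine lintegral_mono_ae ?_
                filter_upwards [hpt] with c hc
                exact (ENNReal.ofReal_le_ofReal hc).trans ENNReal.ofReal_add_le
            _ = (∫⁻ c in Q, ENNReal.ofReal (DD f u c)) + ENNReal.ofReal (V * (k + e)) := by
                rw [lintegral_add_left hDm, setLIntegral_const, hVQ, mul_comm, ← ENNReal.ofReal_mul hV0]
            _ ≤ _ := by gcongr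
        rw [← ENNReal.ofReal_add hB (by positivity), ENNReal.ofReal_le_ofReal_iff (by positivity)] at h4
        linarith
      · have h4 : ENNReal.ofReal ((∑ w ∈ S, mu f w) * (π * s ^ 2 / 2)) + ENNReal.ofReal (V * (-(k + e))) ≤ ENNReal.ofReal B := by
          rw [← e1]
          calc (∫⁻ c in Q, ENNReal.ofReal (∑ w ∈ S, mu f w * log⁺ (s * ‖c - w‖⁻¹))) + ENNReal.ofReal (V * (-(k + e)))
              = ∫⁻ c in Q, (ENNReal.ofReal (∑ w ∈ S, mu f w * log⁺ (s * ‖c - w‖⁻¹)) + ENNReal.ofReal (-(k + e))) := by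
                rw [lintegral_add_left (sum_meas S s).ennreal_ofReal, setLIntegral_const, hVQ, ENNReal.ofReal_mul hV0, mul_comm]
            _ ≤ ∫⁻ c in Q, ENNReal.ofReal (DD f u c) := by
                refine lintegral_mono_ae ?_
                filter_upwards [hpt] with c hc
                rw [← ENNReal.ofReal_add (Finset.sum_nonneg fun i _ => mul_nonneg (mu_nonneg _ _) posLog_nonneg) (by linarith)]
                exact ENNReal.ofReal_le_ofReal (by linarith)
            _ ≤ _ := hDQ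
        have h5 : 0 ≤ (∑ w ∈ S, mu f w) * (π * s ^ 2 / 2) :=
          mul_nonneg (Finset.sum_nonneg fun _ _ => mu_nonneg _ _) (by positivity)
        have h6 : 0 ≤ V * (-(k + e)) := mul_nonneg hV0 (by linarith)
        rw [← ENNReal.ofReal_add h5 h6, ENNReal.ofReal_le_ofReal_iff hB] at h4
        linarith
    exact hgoal
  · intro S hS
    have h5 : 0 ≤ (∑ w ∈ S, mu f w) * (π * s ^ 2 / 2) :=
      mul_nonneg (Finset.sum_nonneg fun _ _ => mu_nonneg _ _) (by positivity)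
    have hgoal : V * (k - e) - B ≤ (∑ w ∈ S, mu f w) * (π * s ^ 2 / 2) := by
      rcases le_or_gt (k - e) 0 with hke | hke
      · have : V * (k - e) ≤ 0 := mul_nonpos_of_nonneg_of_nonpos hV0 hke
        linarith
      · have e1 : ∫⁻ c in Q, ENNReal.ofReal (∑ w ∈ S, mu f w * log⁺ (s * ‖c - w‖⁻¹)) ≤
            ENNReal.ofReal ((∑ w ∈ S, mu f w) * (π * s ^ 2 / 2)) := by
          rw [sum_lint, Finset.sum_mul, ENNReal.ofReal_sum_of_nonneg fun i _ => mul_nonneg (mu_nonneg _ _) (by positivity)]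
          refine Finset.sum_le_sum fun w hw => ?_
          rw [ENNReal.ofReal_mul (mu_nonneg _ _), ← lam_int w hs]
          gcongr
          exact Measure.restrict_le_self
        have hpt : ∀ᵐ c ∂(volume.restrict Q), ENNReal.ofReal (k - e) ≤
            ENNReal.ofReal (∑ w ∈ S, mu f w * log⁺ (s * ‖c - w‖⁻¹)) + ENNReal.ofReal ((2 * π)⁻¹) *
              ∫⁻ θ in Ioc 0 (2 * π), ENNReal.ofReal (DD f u (circleMap c s θ)) := by
          filter_upwards [hae] with c hc
          have h1 := jen_eq hf hc.2 hs S (fun w hw => hS w (hsub c hc.1 hw))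
          obtain ⟨h2, h3⟩ := DD_lint hf h0 hu hs (hDpos c hc.1)
          rw [← h3, ← ENNReal.ofReal_add (Finset.sum_nonneg fun i _ => mul_nonneg (mu_nonneg _ _) posLog_nonneg) h2]
          apply ENNReal.ofReal_le_ofReal
          have h4 := hDpos c hc.1 c (mem_closedBall_self hs.le) hc.2
          rw [DD_avg hf hu]
          have h6 := (abs_le.1 (hk c hc.1)).1
          unfold DD at h4
          linarith
        have h7 : ENNReal.ofReal (V * (k - e)) ≤ ENNReal.ofReal ((∑ w ∈ S, mu f w) * (π * s ^ 2 / 2)) + ENNReal.ofReal B := by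
          calc ENNReal.ofReal (V * (k - e)) = ∫⁻ c in Q, ENNReal.ofReal (k - e) := by
                rw [setLIntegral_const, hVQ, mul_comm (ENNReal.ofReal (k - e)), ← ENNReal.ofReal_mul hV0]
            _ ≤ ∫⁻ c in Q, (ENNReal.ofReal (∑ w ∈ S, mu f w * log⁺ (s * ‖c - w‖⁻¹)) + ENNReal.ofReal ((2 * π)⁻¹) *
              ∫⁻ θ in Ioc 0 (2 * π), ENNReal.ofReal (DD f u (circleMap c s θ))) := lintegral_mono_ae hpt
            _ = (∫⁻ c in Q, ENNReal.ofReal (∑ w ∈ S, mu f w * log⁺ (s * ‖c - w‖⁻¹))) + ∫⁻ c in Q, (ENNReal.ofReal ((2 * π)⁻¹) *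
              ∫⁻ θ in Ioc 0 (2 * π), ENNReal.ofReal (DD f u (circleMap c s θ))) :=
                lintegral_add_left (sum_meas S s).ennreal_ofReal _
            _ ≤ _ := add_le_add e1 ((swap_le hDm hQ hQ' hs hsub).trans hDB)
        rw [← ENNReal.ofReal_add h5 hB, ENNReal.ofReal_le_ofReal_iff (by positivity)] at h7
        linarith
    exact hgoal

end

end Pool.Agent.J4H4.EQ
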