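import Pool.Agent.J4H3.EQ.Stm
import Pool.Agent.J4H4.EQ.Ji

set_option autoImplicit false

/-! # Project EQ: (JN), (KER), (CNT) -/

namespace Pool.Agent.J4H4.EQ

open Complex MeasureTheory Filter Topology Set Metric Real
open Pool.Agent.J4H3.EQ (Rect S_JN S_KER S_CNT J_CNT)

noncomputable section

theorem rw_lam (r : ℝ) (w c : ℂ) : log⁺ (r / ‖w - c‖) = log⁺ (r * ‖c - w‖⁻¹) := by
  rw [norm_sub_rev, div_eq_mul_inv]

theorem t_JN : S_JN := by
  classical
  intro f c r S hf hr hc hS
  -- add the zeros on the circle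
  have hA : AnalyticOnNhd ℂ f (closedBall c |r|) := fun x _ => hf.analyticAt x
  have hfin := (MeromorphicOn.divisor f (closedBall c |r|)).finiteSupport (isCompact_closedBall c |r|)
  have h1 := jen_eq' hf hc hr (S ∪ hfin.toFinset) (fun w hw h => by
    rw [Finset.mem_union]
    right
    rw [Set.Finite.mem_toFinset, Function.mem_support]
    have h2 := dv hA (by rwa [abs_of_pos hr] : w ∈ closedBall c |r|)
    rw [h2]
    exact_mod_cast h)
  rw [h1]
  congr 1
  simp only [rw_lam]
  symm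
  refine Finset.sum_subset Finset.subset_union_left fun w hw hwS => ?_
  by_cases h0 : f w = 0
  · have h2 : ¬ ‖w - c‖ < r := fun h => hwS (hS w h0 h)
    rw [not_lt] at h2
    have h3 : log⁺ (r * ‖c - w‖⁻¹) = 0 := by
      rw [norm_sub_rev] at h2
      rw [posLog_eq_zero_iff, abs_of_nonneg (by positivity), ← div_eq_mul_inv, div_le_one (hr.trans_le h2)]
      exact h2
    rw [h3, mul_zero]
  · have h3 := (hf.analyticAt w).analyticOrderAt_eq_zero.2 h0
    have : analyticOrderNatAt f w = 0 := by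
      unfold analyticOrderNatAt
      rw [h3]
      rfl
    rw [this]
    simp

theorem t_KER : S_KER := by
  intro w r hr
  simp only [rw_lam]
  exact (lam_int w hr).le

theorem Rect_eq (x1 x2 y1 y2 : ℝ) : Rect x1 x2 y1 y2 = Icc x1 x2 ×ℂ Icc y1 y2 := by
  ext w
  unfold Rect
  simp only [Set.mem_ofPred_eq, mem_reProdIm, mem_Icc]
  tauto

theorem Rect_pre (x1 x2 y1 y2 : ℝ) : Rect x1 x2 y1 y2 = Complex.measurableEquivRealProd ⁻¹' (Icc x1 x2 ×ˢ Icc y1 y2) := by
  ext w
  unfold Rect
  simp only [Set.mem_ofPred_eq, mem_preimage, mem_prod, Complex.measurableEquivRealProd_apply, mem_Icc]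
  tauto

theorem Rect_meas (x1 x2 y1 y2 : ℝ) : MeasurableSet (Rect x1 x2 y1 y2) := by
  rw [Rect_pre]
  exact (measurableSet_Icc.prod measurableSet_Icc).preimage Complex.measurableEquivRealProd.measurable

theorem Rect_vol {x1 x2 y1 y2 : ℝ} (hx : x1 ≤ x2) (hy : y1 ≤ y2) :
    volume (Rect x1 x2 y1 y2) = ENNReal.ofReal ((x2 - x1) * (y2 - y1)) := by
  rw [Rect_pre, (Complex.volume_preserving_equiv_real_prod).measure_preimage
    (measurableSet_Icc.prod measurableSet_Icc).nullMeasurableSet, Measure.volume_eq_prod, Measure.prod_prod, Real.volume_Icc,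
    Real.volume_Icc, ENNReal.ofReal_mul (by linarith)]

theorem ball_sub {x1 x2 y1 y2 r : ℝ} {c : ℂ} (hc : c ∈ Rect x1 x2 y1 y2) :
    closedBall c r ⊆ Rect (x1 - r) (x2 + r) (y1 - r) (y2 + r) := by
  intro w hw
  rw [mem_closedBall, dist_eq_norm] at hw
  obtain ⟨h1, h2, h3, h4⟩ := hc
  have h5 := (abs_le.1 ((Complex.abs_re_le_norm (w - c)).trans hw))
  have h6 := (abs_le.1 ((Complex.abs_im_le_norm (w - c)).trans hw))
  simp only [Complex.sub_re, Complex.sub_im] at h5 h6
  refine ⟨by linarith [h5.1], by linarith [h5.2], by linarith [h6.1], by linarith [h6.2]⟩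

theorem t_SCNT : S_CNT := by
  intro f u x1 x2 y1 y2 r L E S hf h0 hu hr hx hy hL hE hup hS hk hint
  have hV := Rect_vol hx hy
  have h1 := JI_low hf h0 hu (Rect_meas x1 x2 y1 y2) (Rect_meas (x1 - r) (x2 + r) (y1 - r) (y2 + r))
    (by rw [hV]; exact ENNReal.ofReal_lt_top) hr (fun c hc => ball_sub hc) hk hup hE hint S hS
  rw [hV, ENNReal.toReal_ofReal (mul_nonneg (by linarith) (by linarith))] at h1
  linarith

theorem t_CNT : J_CNT := fun _ _ => t_SCNT

end

end Pool.Agent.J4H4.EQ
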