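import Pool.Agent.J4H4.EQ.Cnt

set_option autoImplicit false

/-! # Project EQ: (MASS) -/

namespace Pool.Agent.J4H4.EQ

open Complex MeasureTheory Filter Topology Set Metric Real
open Pool.Agent.J4H3.EQ (Rect S_GPT S_SQ S_FARM S_MASS J_MASS pot)
open Pool.Agent.J4H4.NG (EE)

noncomputable section

theorem count_bad {T h D : ℝ} (hh : 0 < h) (hD : 0 ≤ D) {B : Set ℝ} (hB : volume B ≤ ENNReal.ofReal D) (I : Finset ℕ)
    (hI : ∀ i ∈ I, Ico (T + i * h) (T + (i + 1) * h) ⊆ B) : (I.card : ℝ) * h ≤ D := by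
  have h1 : volume (⋃ i ∈ I, Ico (T + (i : ℝ) * h) (T + ((i : ℝ) + 1) * h)) = ∑ i ∈ I, ENNReal.ofReal h := by
    rw [measure_biUnion_finset]
    · refine Finset.sum_congr rfl fun i _ => ?_
      rw [Real.volume_Ico]
      congr 1
      ring
    · intro i _ j _ hij
      wlog hlt : i < j generalizing i j
      · exact (this (by assumption) (by assumption) hij.symm (lt_of_le_of_ne (not_lt.1 hlt) hij.symm)).symm
      · refine Set.disjoint_left.2 fun x hx hy => ?_
        have h2 : ((i : ℝ) + 1) ≤ j := by exact_mod_cast hlt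
        have h3 : ((i : ℝ) + 1) * h ≤ j * h := mul_le_mul_of_nonneg_right h2 hh.le
        linarith [hx.2, hy.1]
    · exact fun i _ => measurableSet_Ico
  have h2 : volume (⋃ i ∈ I, Ico (T + (i : ℝ) * h) (T + ((i : ℝ) + 1) * h)) ≤ ENNReal.ofReal D :=
    (measure_mono (iUnion₂_subset hI)).trans hB
  rw [h1, Finset.sum_const, nsmul_eq_mul, ← ENNReal.ofReal_natCast, ← ENNReal.ofReal_mul (Nat.cast_nonneg _),
    ENNReal.ofReal_le_ofReal_iff hD] at h2
  exact h2

theorem strip {F : ℂ → ENNReal} {T h D G M : ℝ} (hh : 0 < h) (hD : 0 ≤ D) (hG : 0 ≤ G) (hM : 0 ≤ M) (hT : 0 ≤ T) (cell : ℕ → Set ℂ)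
    {B : Set ℝ} (hB : volume B ≤ ENNReal.ofReal D) {n : ℕ} (hn : n = ⌊T / h⌋₊ + 1)
    (hgood : ∀ i < n, (∃ v, T + i * h ≤ v ∧ v ≤ T + (i + 1) * h ∧ v ≤ 2 * T ∧ v ∉ B) → ∫⁻ w in cell i, F w ≤ ENNReal.ofReal G)
    (hbad : ∀ i < n, ∫⁻ w in cell i, F w ≤ ENNReal.ofReal M) :
    ∑ i ∈ Finset.range n, ∫⁻ w in cell i, F w ≤ ENNReal.ofReal ((T / h + 1) * G + (D / h + 1) * M) := by
  classical
  have hfl : (⌊T / h⌋₊ : ℝ) ≤ T / h := Nat.floor_le (by positivity)
  set P : ℕ → Prop := fun i => ∃ v, T + i * h ≤ v ∧ v ≤ T + (i + 1) * h ∧ v ≤ 2 * T ∧ v ∉ B with hP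
  rw [← Finset.sum_filter_add_sum_filter_not (Finset.range n) P]
  have s1 : ∑ i ∈ (Finset.range n).filter P, ∫⁻ w in cell i, F w ≤ ENNReal.ofReal ((T / h + 1) * G) := by
    calc _ ≤ ∑ i ∈ (Finset.range n).filter P, ENNReal.ofReal G := Finset.sum_le_sum fun i hi => by
          rw [Finset.mem_filter, Finset.mem_range] at hi
          exact hgood i hi.1 hi.2
      _ = ENNReal.ofReal ((((Finset.range n).filter P).card : ℝ) * G) := by
          rw [Finset.sum_const, nsmul_eq_mul, ← ENNReal.ofReal_natCast, ← ENNReal.ofReal_mul (Nat.cast_nonneg _)]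
      _ ≤ _ := by
          apply ENNReal.ofReal_le_ofReal
          have c1 : (((Finset.range n).filter P).card : ℝ) ≤ n := by
            exact_mod_cast (Finset.card_filter_le _ _).trans (Finset.card_range n).le
          have c2 : (n : ℝ) ≤ T / h + 1 := by rw [hn]; push_cast; linarith
          gcongr
          linarith
  have hcard : (((Finset.range n).filter (fun i => ¬ P i)).card : ℝ) ≤ D / h + 1 := by
    have h1 := count_bad (T := T) hh hD hB (((Finset.range n).filter (fun i => ¬ P i)).erase (n - 1)) (by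
      intro i hi v hv
      rw [Finset.mem_erase, Finset.mem_filter, Finset.mem_range] at hi
      by_contra hvB
      apply hi.2.2
      refine ⟨v, hv.1, hv.2.le, ?_, hvB⟩
      have h2 : i + 1 ≤ ⌊T / h⌋₊ := by omega
      have h3 : ((i : ℝ) + 1) ≤ T / h := le_trans (by exact_mod_cast h2) hfl
      rw [le_div_iff₀ hh] at h3
      linarith [hv.2])
    have h2 : ((Finset.range n).filter (fun i => ¬ P i)).card ≤
        (((Finset.range n).filter (fun i => ¬ P i)).erase (n - 1)).card + 1 := by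
      have := Finset.pred_card_le_card_erase (s := (Finset.range n).filter (fun i => ¬ P i)) (a := n - 1)
      omega
    have h3 : (((Finset.range n).filter (fun i => ¬ P i)).card : ℝ) ≤
        ((((Finset.range n).filter (fun i => ¬ P i)).erase (n - 1)).card : ℝ) + 1 := by exact_mod_cast h2
    rw [← le_div_iff₀ hh] at h1
    linarith
  have s2 : ∑ i ∈ (Finset.range n).filter (fun i => ¬ P i), ∫⁻ w in cell i, F w ≤ ENNReal.ofReal ((D / h + 1) * M) := by
    calc _ ≤ ∑ i ∈ (Finset.range n).filter (fun i => ¬ P i), ENNReal.ofReal M := Finset.sum_le_sum fun i hi => by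
          rw [Finset.mem_filter, Finset.mem_range] at hi
          exact hbad i hi.1
      _ = ENNReal.ofReal ((((Finset.range n).filter (fun i => ¬ P i)).card : ℝ) * M) := by
          rw [Finset.sum_const, nsmul_eq_mul, ← ENNReal.ofReal_natCast, ← ENNReal.ofReal_mul (Nat.cast_nonneg _)]
      _ ≤ _ := by
          apply ENNReal.ofReal_le_ofReal
          gcongr
  rw [ENNReal.ofReal_add (by positivity) (by positivity)]
  exact add_le_add s1 s2

theorem lint_cover {ι : Type} (F : ℂ → ENNReal) (s : Finset ι) (t : ι → Set ℂ) :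
    ∫⁻ w in ⋃ i ∈ s, t i, F w ≤ ∑ i ∈ s, ∫⁻ w in t i, F w := by
  classical
  induction s using Finset.induction_on with
  | empty => simp
  | insert i s hi ih =>
    rw [Finset.set_biUnion_insert, Finset.sum_insert hi]
    refine (lintegral_union_le _ _ _).trans ?_
    gcongr

/-- the cells -/
def cel (a L κ T : ℝ) (j i : ℕ) : Set ℂ :=
  Rect (-(a * L) + j * (κ * L) - κ * L) (-(a * L) + j * (κ * L) + κ * L) (T + i * (κ * L)) (T + i * (κ * L) + κ * L) ∩
    {w : ℂ | -(a * L) ≤ w.re ∧ w.re ≤ a * L}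

theorem cover {a L κ T : ℝ} (ha : 0 < a) (hL : 0 < L) (hκ : 0 < κ) (hT : 0 ≤ T) :
    Rect (-(a * L)) (a * L) T (2 * T) ⊆ ⋃ j ∈ Finset.range (⌊2 * a / κ⌋₊ + 1), ⋃ i ∈ Finset.range (⌊T / (κ * L)⌋₊ + 1), cel a L κ T j i := by
  intro w hw
  obtain ⟨h1, h2, h3, h4⟩ := hw
  have hκL : 0 < κ * L := by positivity
  have hj0 : 0 ≤ (w.re + a * L) / (κ * L) := div_nonneg (by linarith) hκL.le
  have hi0 : 0 ≤ (w.im - T) / (κ * L) := div_nonneg (by linarith) hκL.le
  simp only [mem_iUnion, Finset.mem_range, exists_prop]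
  refine ⟨⌊(w.re + a * L) / (κ * L)⌋₊, ?_, ⌊(w.im - T) / (κ * L)⌋₊, ?_, ?_⟩
  · rw [Nat.lt_succ_iff]
    apply Nat.floor_le_floor
    rw [div_le_div_iff₀ hκL hκ]
    nlinarith
  · rw [Nat.lt_succ_iff]
    apply Nat.floor_le_floor
    gcongr
    linarith
  · have f1 := Nat.floor_le hj0
    have f2 := Nat.lt_floor_add_one ((w.re + a * L) / (κ * L))
    have f3 := Nat.floor_le hi0
    have f4 := Nat.lt_floor_add_one ((w.im - T) / (κ * L))
    rw [le_div_iff₀ hκL] at f1 f3
    rw [div_lt_iff₀ hκL] at f2 f4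
    refine ⟨⟨?_, ?_, ?_, ?_⟩, h1, h2⟩
    · linarith
    · linarith
    · linarith
    · linarith

theorem t_MASS : J_MASS := by
  intro hGPT hSQ hFARM a A ε ha hε
  obtain ⟨C, T1, hC, hT1, hFar⟩ := hFARM a A ha
  -- κ
  obtain ⟨κ, hκ0, hκ1, hκa, hκε⟩ : ∃ κ : ℝ, 0 < κ ∧ κ ≤ 1 ∧ κ ≤ a ∧ 900 * κ ^ 2 ≤ ε / 4 := by
    refine ⟨min 1 (min a (√ε / 60)), by positivity, min_le_left _ _, (min_le_right _ _).trans (min_le_left _ _), ?_⟩
    have h1 : min 1 (min a (√ε / 60)) ≤ √ε / 60 := (min_le_right _ _).trans (min_le_right _ _)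
    have h2 : 0 < min 1 (min a (√ε / 60)) := by positivity
    calc 900 * (min 1 (min a (√ε / 60))) ^ 2 ≤ 900 * (√ε / 60) ^ 2 := by gcongr
      _ = ε / 4 := by rw [div_pow, Real.sq_sqrt hε.le]; ring
  obtain ⟨μ, hμ⟩ : ∃ μ : ℝ, μ = κ / (8 * a) := ⟨_, rfl⟩
  have hμ0 : 0 < μ := by rw [hμ]; positivity
  have haμ : a * μ = κ / 8 := by rw [hμ]; field_simp
  have hμ1 : μ < 1 / 2 := by
    rw [hμ, div_lt_div_iff₀ (by positivity) (by norm_num)]
    linarith
  obtain ⟨δ, hδ⟩ : ∃ δ : ℝ, δ = ε * κ ^ 2 / (12 * a * C) := ⟨_, rfl⟩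
  have hδ0 : 0 < δ := by rw [hδ]; positivity
  obtain ⟨A', T2, hA', hT2, hG⟩ := hGPT a μ κ δ ha hμ0 hμ1 hκ0 hδ0
  obtain ⟨T3, hT3, hS⟩ := hSQ a κ A A' ha hκ0 hκ1
  -- largeness
  have hev : ∀ᶠ T : ℝ in atTop, Real.log T * (900 * κ ^ 3 + 3 * a * C / κ) ≤ ε / 4 * T := by
    have h1 := Real.isLittleO_log_id_atTop.const_mul_left (900 * κ ^ 3 + 3 * a * C / κ)
    have h2 := h1.bound (show 0 < ε / 4 by positivity)
    filter_upwards [h2, eventually_ge_atTop 1] with T h3 h4
    simp only [id, Real.norm_eq_abs] at h3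
    rw [abs_of_nonneg (mul_nonneg (by positivity) (Real.log_nonneg h4)), abs_of_nonneg (by linarith : (0 : ℝ) ≤ T)] at h3
    rw [mul_comm]
    linarith
  obtain ⟨T4, hT4⟩ := eventually_atTop.1 hev
  refine ⟨max (max T1 T2) (max T3 T4), (hT1.trans (le_max_left _ _)).trans (le_max_left _ _), ?_⟩
  intro T hT
  have g1 : T1 ≤ T := ((le_max_left _ _).trans (le_max_left _ _)).trans hT
  have g2 : T2 ≤ T := ((le_max_right _ _).trans (le_max_left _ _)).trans hT
  have g3 : T3 ≤ T := ((le_max_left _ _).trans (le_max_right _ _)).trans hT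
  have g4 : T4 ≤ T := ((le_max_right _ _).trans (le_max_right _ _)).trans hT
  have hT2' : 2 ≤ T := hT1.trans g1
  have hT0 : 0 < T := by linarith
  have hL0 : 0 < Real.log T := Real.log_pos (by linarith)
  have hlarge := hT4 T g4
  have hFar' := hFar T g1
  have hG' := hG T g2
  have hS' := hS T g3
  obtain ⟨L, hL⟩ : ∃ L : ℝ, L = Real.log T := ⟨_, rfl⟩
  rw [← hL] at hL0 hlarge hFar' hG' hS' ⊢
  have hκL : 0 < κ * L := by positivity
  have hκLL : κ * L ≤ L := by nlinarith
  obtain ⟨F, hF⟩ : ∃ F : ℂ → ENNReal, F = fun w => ENNReal.ofReal (pot a w + A * L - Real.log ‖EE a w‖) := ⟨_, rfl⟩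
  have hFar2 : ∀ v : ℝ, T ≤ v → v ≤ 2 * T → ∫⁻ w in Rect (-(a * L)) (a * L) v (v + L), F w ≤ ENNReal.ofReal (C * L ^ 4) := by
    rw [hF]; exact hFar'
  have hS2 : ∀ (x v : ℝ) (g : ℂ), |x| ≤ a * L → T ≤ v → v ≤ 2 * T → |g.re - x| ≤ 2 * κ * L → |g.im - v| ≤ 2 * κ * L → EE a g ≠ 0 →
      pot a g - A' * L ≤ Real.log ‖EE a g‖ →
      ∫⁻ w in Rect (x - κ * L) (x + κ * L) v (v + κ * L), F w ≤ ENNReal.ofReal (300 * κ ^ 4 / a * L ^ 4) := by
    rw [hF]; exact hS'
  have hgoal : ∫⁻ w in Rect (-(a * L)) (a * L) T (2 * T), F w ≤ ENNReal.ofReal (ε * T * L ^ 3) := by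
    -- each row
    have hrow : ∀ j ∈ Finset.range (⌊2 * a / κ⌋₊ + 1), ∑ i ∈ Finset.range (⌊T / (κ * L)⌋₊ + 1), ∫⁻ w in cel a L κ T j i, F w ≤
        ENNReal.ofReal ((T / (κ * L) + 1) * (300 * κ ^ 4 / a * L ^ 4) + (δ * T / (κ * L) + 1) * (C * L ^ 4)) := by
      intro j hj
      rw [Finset.mem_range, Nat.lt_succ_iff] at hj
      have hj1 : (j : ℝ) ≤ 2 * a / κ := le_trans (by exact_mod_cast hj) (Nat.floor_le (by positivity))
      rw [le_div_iff₀ hκ0] at hj1
      have hj0 : (0 : ℝ) ≤ j := Nat.cast_nonneg j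
      obtain ⟨x, hx⟩ : ∃ x : ℝ, x = -(a * L) + j * (κ * L) := ⟨_, rfl⟩
      have hx1 : |x| ≤ a * L := by
        rw [abs_le, hx]
        constructor
        · nlinarith
        · nlinarith
      -- a level allowed
      obtain ⟨x', hx'1, hx'2, hx'3⟩ : ∃ x' : ℝ, 2 * a * μ * L ≤ |x'| ∧ |x'| ≤ a * (1 - 2 * μ) * L ∧ |x' - x| ≤ κ * L := by
        have e1 : 2 * a * μ * L = κ / 4 * L := by rw [show 2 * a * μ = 2 * (a * μ) by ring, haμ]; ring
        have e2 : a * (1 - 2 * μ) * L = (a - κ / 4) * L := by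
          rw [show a * (1 - 2 * μ) = a - 2 * (a * μ) by ring, haμ]; ring
        rw [e1, e2]
        have hκ4 : κ / 4 * L ≤ (a - κ / 4) * L := by
          apply mul_le_mul_of_nonneg_right _ hL0.le
          linarith
        have hpos : 0 < κ / 4 * L := by positivity
        rcases lt_or_ge |x| (κ / 4 * L) with h5 | h5
        · refine ⟨κ / 4 * L, (le_abs_self _), by rw [abs_of_pos hpos]; exact hκ4, ?_⟩
          rw [abs_lt] at h5
          rw [abs_le]
          constructor
          · linarith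
          · linarith
        · rcases le_or_gt |x| ((a - κ / 4) * L) with h6 | h6
          · exact ⟨x, h5, h6, by simp [hκL.le]⟩
          · rcases le_or_gt 0 x with h7 | h7
            · rw [abs_of_nonneg h7] at h6 hx1
              have h8 : 0 ≤ (a - κ / 4) * L := by linarith
              refine ⟨(a - κ / 4) * L, by rw [abs_of_nonneg h8]; exact hκ4, by rw [abs_of_nonneg h8], ?_⟩
              rw [abs_le]
              constructor
              · linarith
              · linarith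
            · rw [abs_of_neg h7] at h6 hx1
              have h8 : 0 ≤ (a - κ / 4) * L := by linarith
              refine ⟨-((a - κ / 4) * L), by rw [abs_neg, abs_of_nonneg h8]; exact hκ4, by rw [abs_neg, abs_of_nonneg h8], ?_⟩
              rw [abs_le]
              constructor
              · linarith
              · linarith
      have hvol := hG' x' hx'1 hx'2
      refine strip hκL (by positivity) (by positivity) (by positivity) hT0.le (fun i => cel a L κ T j i) hvol rfl ?_ ?_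
      · rintro i hi ⟨v, v1, v2, v3, v4⟩
        have hi1 : (i : ℝ) ≤ T / (κ * L) := le_trans (by exact_mod_cast Nat.lt_succ_iff.1 hi) (Nat.floor_le (by positivity))
        rw [le_div_iff₀ hκL] at hi1
        have hi0 : 0 ≤ (i : ℝ) * (κ * L) := by positivity
        have v5 : ∃ g : ℂ, |g.re - x'| ≤ κ * L ∧ |g.im - v| ≤ κ * L ∧ EE a g ≠ 0 ∧ pot a g - A' * L ≤ Real.log ‖EE a g‖ := by
          by_contra hcon
          apply v4
          refine ⟨by linarith, v3, fun g hg1 hg2 hg3 => ?_⟩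
          by_contra hlt
          exact hcon ⟨g, hg1, hg2, hg3, not_lt.1 hlt⟩
        obtain ⟨g, g5, g6, g7, g8⟩ := v5
        have s1 := hS2 x (T + i * (κ * L)) g hx1 (by linarith) (by linarith)
          (by
            have := abs_sub_le g.re x' x
            linarith)
          (by
            have h9 : |v - (T + i * (κ * L))| ≤ κ * L := by
              rw [abs_le]
              constructor
              · linarith
              · linarith
            have := abs_sub_le g.im v (T + i * (κ * L))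
            linarith) g7 g8
        refine le_trans ?_ s1
        apply lintegral_mono' _ le_rfl
        apply Measure.restrict_mono _ le_rfl
        intro w hw
        rw [hx]
        exact hw.1
      · intro i hi
        have hi1 : (i : ℝ) ≤ T / (κ * L) := le_trans (by exact_mod_cast Nat.lt_succ_iff.1 hi) (Nat.floor_le (by positivity))
        rw [le_div_iff₀ hκL] at hi1
        have hi0 : 0 ≤ (i : ℝ) * (κ * L) := by positivity
        refine le_trans ?_ (hFar2 (T + i * (κ * L)) (by linarith) (by linarith))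
        apply lintegral_mono' _ le_rfl
        apply Measure.restrict_mono _ le_rfl
        intro w hw
        exact ⟨hw.2.1, hw.2.2, hw.1.2.2.1, hw.1.2.2.2.trans (by linarith)⟩
    have hsum : ∫⁻ w in Rect (-(a * L)) (a * L) T (2 * T), F w ≤
        ∑ j ∈ Finset.range (⌊2 * a / κ⌋₊ + 1), ∑ i ∈ Finset.range (⌊T / (κ * L)⌋₊ + 1), ∫⁻ w in cel a L κ T j i, F w := by
      refine (lintegral_mono' (Measure.restrict_mono (cover ha hL0 hκ0 hT0.le) le_rfl) le_rfl).trans ?_
      refine (lint_cover _ _ _).trans ?_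
      exact Finset.sum_le_sum fun j _ => lint_cover _ _ _
    refine hsum.trans ((Finset.sum_le_sum hrow).trans ?_)
    rw [Finset.sum_const, nsmul_eq_mul, Finset.card_range, ← ENNReal.ofReal_natCast, ← ENNReal.ofReal_mul (Nat.cast_nonneg _)]
    apply ENNReal.ofReal_le_ofReal
    have hm : ((⌊2 * a / κ⌋₊ + 1 : ℕ) : ℝ) ≤ 3 * a / κ := by
      push_cast
      have f1 := Nat.floor_le (by positivity : 0 ≤ 2 * a / κ)
      have f2 : 1 ≤ a / κ := by rwa [one_le_div hκ0]
      have f3 : 3 * a / κ = 2 * a / κ + a / κ := by ring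
      linarith
    calc ((⌊2 * a / κ⌋₊ + 1 : ℕ) : ℝ) * ((T / (κ * L) + 1) * (300 * κ ^ 4 / a * L ^ 4) + (δ * T / (κ * L) + 1) * (C * L ^ 4))
        ≤ 3 * a / κ * ((T / (κ * L) + 1) * (300 * κ ^ 4 / a * L ^ 4) + (δ * T / (κ * L) + 1) * (C * L ^ 4)) := by gcongr
      _ = 900 * κ ^ 2 * T * L ^ 3 + 3 * a * C * δ / κ ^ 2 * T * L ^ 3 + (L * (900 * κ ^ 3 + 3 * a * C / κ)) * L ^ 3 := by
        field_simp
        ring
      _ ≤ ε / 4 * T * L ^ 3 + ε / 4 * T * L ^ 3 + (ε / 4 * T) * L ^ 3 := by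
        have e3 : 3 * a * C * δ / κ ^ 2 = ε / 4 := by
          rw [hδ]
          field_simp
          ring
        rw [e3]
        gcongr
      _ ≤ ε * T * L ^ 3 := by
        have : 0 ≤ ε * T * L ^ 3 := by positivity
        linarith
  rw [hF] at hgoal
  exact hgoal

end

end Pool.Agent.J4H4.EQ
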